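import Pool.Agent.LC5.Stmts

/-!
# FBR (MP_e0fe99_lc): the fibre

Polygonal paths in the set of the free directions.
-/

set_option autoImplicit false

namespace Pool.Agent.LC5.H15

open Pool.Agent.LC5

/-- a straight path -/
theorem jseg (a b c x y z x' y' z' : ℝ)
    (h : ∀ t : ℝ, 0 ≤ t → t ≤ 1 →
      (x + t * (x' - x), y + t * (y' - y), z + t * (z' - z)) ∈ Fr a b c) :
    JoinedIn (Fr a b c) (x, y, z) (x', y', z') := by
  refine JoinedIn.of_segment_subset ?_
  intro p hp
  rw [segment_eq_image'] at hp
  obtain ⟨t, ⟨ht0, ht1⟩, rfl⟩ := hp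
  have h1 := h t ht0 ht1
  have h2 : (x, y, z) + t • ((x', y', z') - (x, y, z)) =
      (x + t * (x' - x), y + t * (y' - y), z + t * (z' - z)) := by
    simp [Prod.ext_iff]
  show (x, y, z) + t • ((x', y', z') - (x, y, z)) ∈ Fr a b c
  rw [h2]
  exact h1

/-- membership in coordinates -/
theorem mem_Fr (a b c x y z : ℝ) (h1 : z = 0 → 0 ≤ x → 0 ≤ y → False)
    (h2 : y = 0 → 0 ≤ x → 0 ≤ z → False)
    (h3 : ∀ s t : ℝ, 0 ≤ s → 0 ≤ t → x = s * a → y = s * b → z = s * c + t → False) :
    (x, y, z) ∈ Fr a b c := by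
  refine ⟨fun h => h1 h.1 h.2.1 h.2.2, fun h => h2 h.1 h.2.1 h.2.2, ?_⟩
  rintro ⟨s, t, hs, ht, h⟩
  simp only [Prod.mk.injEq] at h
  exact h3 s t hs ht h.1 h.2.1 h.2.2

/-- the case `z < 0` -/
theorem case1 (a b c x y z : ℝ) (ha : a ≠ 0) (hxy : x * b ≠ y * a) (hz : z < 0) :
    JoinedIn (Fr a b c) (x, y, z) (0, -1, 0) := by
  have hA : JoinedIn (Fr a b c) (x, y, z) (0, 0, -1) := by
    apply jseg
    intro t ht0 ht1
    have hzt : z + t * (-1 - z) < 0 := by
      rcases eq_or_lt_of_le ht0 with h | h
      · rw [← h]; linarith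
      · nlinarith [mul_nonneg (sub_nonneg.2 ht1) (neg_nonneg.2 hz.le)]
    refine mem_Fr _ _ _ _ _ _ (fun h _ _ => by linarith) (fun _ _ h => by linarith) ?_
    intro s t' hs ht' h1 h2 h3
    have h4 : (x * b - y * a) * (1 - t) = 0 := by
      have h5 : (x + t * (0 - x)) * b = (y + t * (0 - y)) * a := by
        rw [h1, h2]; ring
      linarith
    have h5 : (1 - t) = 0 := by
      rcases mul_eq_zero.1 h4 with h | h
      · exact absurd (sub_eq_zero.1 h) hxy
      · exact h
    have h6 : t = 1 := by linarith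
    subst h6
    have h7 : s = 0 := by
      have h8 : s * a = 0 := by linarith
      rcases mul_eq_zero.1 h8 with h | h
      · exact h
      · exact absurd h ha
    subst h7
    linarith
  have hB : JoinedIn (Fr a b c) (0, 0, -1) (0, -1, 0) := by
    apply jseg
    intro t ht0 ht1
    refine mem_Fr _ _ _ _ _ _ (fun h1 _ h2 => by linarith) (fun h1 _ h2 => by linarith) ?_
    intro s t' hs ht' h1 h2 h3
    have h7 : s = 0 := by
      have h8 : s * a = 0 := by linarith
      rcases mul_eq_zero.1 h8 with h | h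
      · exact h
      · exact absurd h ha
    subst h7
    linarith
  exact hA.trans hB

/-- the case `x < 0` or `y < 0` -/
theorem case2 (a b c x y z : ℝ) (ha : a ≠ 0) (hy : y ≠ 0) (hxy : x * b ≠ y * a)
    (h : x < 0 ∨ y < 0) :
    JoinedIn (Fr a b c) (x, y, z) (0, -1, 0) := by
  have hA : JoinedIn (Fr a b c) (x, y, z) (x, y, -1) := by
    apply jseg
    intro t ht0 ht1
    refine mem_Fr _ _ _ _ _ _ (fun _ h1 h2 => ?_) (fun h1 _ _ => ?_) ?_
    · rcases h with h | h
      · linarith
      · linarith
    · apply hy; linarith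
    · intro s t' hs ht' h1 h2 h3
      apply hxy
      have h4 : x = s * a := by linarith
      have h5 : y = s * b := by linarith
      rw [h4, h5]; ring
  exact hA.trans (case1 a b c x y (-1) ha hxy (by norm_num))

/-- move `x` to a negative value -/
theorem case3 (a b c x y z x' : ℝ) (ha : a ≠ 0) (hy : y ≠ 0) (hz : z ≠ 0)
    (hx' : x' < 0) (hxb : x' * b ≠ y * a)
    (h : ∀ t s t' : ℝ, 0 ≤ t → t ≤ 1 → 0 ≤ s → 0 ≤ t' → x + t * (x' - x) = s * a → y = s * b →
      z = s * c + t' → False) :
    JoinedIn (Fr a b c) (x, y, z) (0, -1, 0) := by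
  have hA : JoinedIn (Fr a b c) (x, y, z) (x', y, z) := by
    apply jseg
    intro t ht0 ht1
    refine mem_Fr _ _ _ _ _ _ (fun h1 _ _ => ?_) (fun h1 _ _ => ?_) ?_
    · apply hz; linarith
    · apply hy; linarith
    · intro s t' hs ht' h1 h2 h3
      exact h t s t' ht0 ht1 hs ht' h1 (by linarith) (by linarith)
  exact hA.trans (case2 a b c x' y z ha hy hxb (Or.inl hx'))

/-- FBR -/
theorem fbr : FBRStmt := by
  intro a b c x y z ha hc hy hz hxy hN
  rcases lt_or_gt_of_ne hz with hz' | hz'
  · exact case1 a b c x y z ha hxy hz'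
  by_cases h2 : x < 0 ∨ y < 0
  · exact case2 a b c x y z ha hy hxy h2
  push Not at h2
  obtain ⟨hx0, hy0⟩ := h2
  have hy1 : 0 < y := lt_of_le_of_ne hy0 (Ne.symm hy)
  by_cases hb : 0 < b
  · rcases lt_or_gt_of_ne hxy with h3 | h3
    · -- `x b < y a`
      have hD : (-1 : ℝ) * b < y * a := by nlinarith [mul_nonneg hx0 hb.le]
      refine case3 a b c x y z (-1) ha hy hz (by norm_num) (ne_of_lt hD) ?_
      intro t s t' ht0 ht1 hs ht' e1 e2 e3
      have h4 : (x + t * (-1 - x)) * b = y * a := by rw [e1, e2]; ring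
      have h5 : x + t * (-1 - x) ≤ x := by nlinarith
      have h6 : (x + t * (-1 - x)) * b ≤ x * b := mul_le_mul_of_nonneg_right h5 hb.le
      linarith
    · -- `y a < x b`
      rcases lt_or_gt_of_ne ha with ha' | ha'
      · -- `a < 0`
        have hya : y * a < 0 := mul_neg_of_pos_of_neg hy1 ha'
        have hq : y * a / (2 * b) < 0 := div_neg_of_neg_of_pos hya (by linarith)
        have hqb : y * a / (2 * b) * b = y * a / 2 := by
          field_simp
        refine case3 a b c x y z (y * a / (2 * b)) ha hy hz hq ?_ ?_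
        · rw [hqb]; intro h; linarith
        · intro t s t' ht0 ht1 hs ht' e1 e2 e3
          have h4 : (x + t * (y * a / (2 * b) - x)) * b = y * a := by rw [e1, e2]; ring
          have h5 : y * a / (2 * b) ≤ x + t * (y * a / (2 * b) - x) := by nlinarith
          have h6 : y * a / (2 * b) * b ≤ (x + t * (y * a / (2 * b) - x)) * b :=
            mul_le_mul_of_nonneg_right h5 hb.le
          linarith
      · -- `0 < a`, so `0 < c`
        have hc' : 0 < c := by
          rcases lt_or_gt_of_ne hc with h | h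
          · exact absurd ⟨ha', hb, h, hy1, hz', h3⟩ hN
          · exact h
        set w : ℝ := c * y / (2 * b) with hw
        have hw0 : 0 < w := by positivity
        have hwb : w * b = c * y / 2 := by rw [hw]; field_simp
        have hA : JoinedIn (Fr a b c) (x, y, z) (x, y, w) := by
          apply jseg
          intro t ht0 ht1
          refine mem_Fr _ _ _ _ _ _ (fun h1 _ _ => ?_) (fun h1 _ _ => ?_) ?_
          · rcases eq_or_lt_of_le ht0 with h | h
            · rw [← h] at h1; linarith
            · nlinarith [mul_pos h hw0, mul_nonneg (sub_nonneg.2 ht1) hz'.le]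
          · apply hy; linarith
          · intro s t' hs ht' e1 e2 e3
            apply hxy
            have h4 : x = s * a := by linarith
            have h5 : y = s * b := by linarith
            rw [h4, h5]; ring
        have hD : (-1 : ℝ) * b < y * a := by nlinarith [mul_pos hy1 ha']
        refine hA.trans (case3 a b c x y w (-1) ha hy hw0.ne' (by norm_num) (ne_of_lt hD) ?_)
        intro t s t' ht0 ht1 hs ht' e1 e2 e3
        have h6 : s * c ≤ w := by linarith
        have h7 : s * c * b ≤ w * b := mul_le_mul_of_nonneg_right h6 hb.le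
        have h8 : s * c * b = c * y := by rw [e2]; ring
        have h9 : 0 < c * y := mul_pos hc' hy1
        linarith
  · -- `b ≤ 0`: the ray is not met
    push Not at hb
    have hex : ∃ x' : ℝ, x' < 0 ∧ x' * b ≠ y * a := by
      by_cases h : (-1 : ℝ) * b = y * a
      · refine ⟨-2, by norm_num, ?_⟩
        intro h'
        have h4 : b = 0 := by linarith
        have h5 : y * a = 0 := by rw [← h, h4]; ring
        rcases mul_eq_zero.1 h5 with h6 | h6
        · exact hy h6
        · exact ha h6
      · exact ⟨-1, by norm_num, h⟩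
    obtain ⟨x', hx', hxb⟩ := hex
    refine case3 a b c x y z x' ha hy hz hx' hxb ?_
    intro t s t' ht0 ht1 hs ht' e1 e2 e3
    have h4 : s * b ≤ 0 := mul_nonpos_of_nonneg_of_nonpos hs hb
    linarith

end Pool.Agent.LC5.H15
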